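import Pool.Agent.helper32.PN.Spec

/-!
# CRIT: the criterion
-/

set_option autoImplicit false

namespace Pool.Agent.PN

open Module Polynomial Pool.Agent.helper27.PC

theorem CRIT (hASY : ASY_stmt) (hPW : PW_stmt) : CRIT_stmt := by
  intro t K ρ J z hodd hJ hK hH hL
  have ht := hASY t K ρ J z hodd hJ hK hH
  have hL' : ((Lq t K ρ J z : ℚ) : ℝ) < 0 := by exact_mod_cast hL
  obtain ⟨k₀, hk₀⟩ := Filter.eventually_atTop.mp (ht.eventually_lt_const hL')
  refine ⟨max k₀ 1, fun k hk => ⟨(2 * J * k + z).toNat, ?_⟩⟩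
  have h1 := hk₀ k (le_trans (le_max_left _ _) hk)
  have hk1 : 1 ≤ k := le_trans (le_max_right _ _) hk
  have hpos : (0 : ℝ) < (k : ℝ) ^ (2 * J - 1) := by
    have : (0 : ℝ) < (k : ℝ) := by exact_mod_cast hk1
    positivity
  have h2 : (((∑ S ∈ ends (k + ρ.sum) (vac (k + ρ.sum)),
      U t (k + ρ.sum) (ρ ++ List.replicate k 1) S ^ 2).coeff (2 * J * k + z).toNat : ℤ) : ℝ) < 0 := by
    by_contra hn
    exact absurd h1 (not_lt.mpr (div_nonneg (not_lt.mp hn) hpos.le))
  have h3 := hPW t (k + ρ.reverse.sum) (List.replicate k 1 ++ ρ.reverse) (by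
    intro a ha
    rcases List.mem_append.mp ha with ha | ha
    · rw [List.eq_of_mem_replicate ha]; exact odd_one
    · exact hodd a (List.mem_reverse.mp ha))
  have e1 : (List.replicate k 1 ++ ρ.reverse).sum = k + ρ.sum := by
    rw [List.sum_append, List.sum_reverse]
    simp
  have e2 : (List.replicate k 1 ++ ρ.reverse).reverse = ρ ++ List.replicate k 1 := by
    rw [List.reverse_append, List.reverse_reverse, List.reverse_replicate]
  have e3 : ρ.reverse.sum = ρ.sum := List.sum_reverse ρ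
  rw [h3, e1, e2, e3]
  exact_mod_cast h2

end Pool.Agent.PN
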